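import Pool.Agent.H15.FLD.Targets

/-!
MP_c62aed_lc, cutting planes for random CNFs, row NM0: the parameters (after helper32's row NMC).
-/

set_option autoImplicit false

namespace Pool.Agent.H36.FLD

open Pool.Agent.H15.FLD

/-- The last inequality. -/
theorem last_ineq0 (ε : ℝ) (n l N k : ℕ) (hε : 0 < ε) (hN1 : 1 ≤ N) (hN : ε * N ≤ 2)
    (hl : 1 ≤ l) (hlk : 4096 * (l : ℝ) ≤ ε ^ 2 * k) :
    16 * (n : ℝ) ≤ ε * k * (((n / (40 * l * N) : ℕ) : ℝ) + 1) := by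
  have hNR : (0 : ℝ) < N := by exact_mod_cast hN1
  have hl0 : (0 : ℝ) < l := by exact_mod_cast hl
  have hn0 : (0 : ℝ) ≤ n := Nat.cast_nonneg n
  have hk0 : (0 : ℝ) ≤ k := Nat.cast_nonneg k
  have hlt : (n : ℝ) / ((40 * l * N : ℕ) : ℝ) < ((n / (40 * l * N) : ℕ) : ℝ) + 1 := by
    have := Nat.lt_floor_add_one ((n : ℝ) / ((40 * l * N : ℕ) : ℝ))
    rwa [Nat.floor_div_natCast, Nat.floor_natCast] at this
  have hz : (0 : ℝ) < ((40 * l * N : ℕ) : ℝ) := by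
    push_cast
    positivity
  rw [div_lt_iff₀ hz] at hlt
  push_cast at hlt
  obtain ⟨s, hs⟩ : ∃ s : ℝ, s = ((n / (40 * l * N) : ℕ) : ℝ) + 1 := ⟨_, rfl⟩
  rw [← hs] at hlt ⊢
  have hs0 : (0 : ℝ) ≤ s := by
    rw [hs]
    positivity
  have h5 : 4096 * (l : ℝ) * n ≤ 80 * l * (ε * k * s) := by
    calc 4096 * (l : ℝ) * n ≤ ε ^ 2 * k * n := mul_le_mul_of_nonneg_right hlk hn0
      _ ≤ ε ^ 2 * k * (s * (40 * l * N)) := mul_le_mul_of_nonneg_left hlt.le (by positivity)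
      _ = 40 * l * (ε * k * s) * (ε * N) := by ring
      _ ≤ 40 * l * (ε * k * s) * 2 := mul_le_mul_of_nonneg_left hN (by positivity)
      _ = 80 * l * (ε * k * s) := by ring
  have h6 : (l : ℝ) * (4096 * n) ≤ l * (80 * (ε * k * s)) := by linarith
  have h7 : 4096 * (n : ℝ) ≤ 80 * (ε * k * s) := le_of_mul_le_mul_left h6 hl0
  linarith

/-- The exponents. -/
theorem exp_ineq (ε β : ℝ) (n l N k w : ℕ) (hN : 1 ≤ ε * N) (hl : 1 ≤ l)
    (hlk : 4096 * l ≤ k) (hkn : 4096 * (k : ℝ) ≤ ε * n) (hwn : w ≤ n)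
    (hw : β * n - 1 ≤ (w : ℝ) + k) :
    ((2 + 5 * l * (n / (40 * l * N)) + (n - w) : ℕ) : ℝ) ≤ (1 - (β - ε)) * n ∧
    ((2 + 2 * l * (n / (40 * l * N) + 1) + (n - w) : ℕ) : ℝ) ≤ (1 - (β - ε)) * n := by
  have hN1 : 1 ≤ N := by
    rcases Nat.eq_zero_or_pos N with h | h
    · subst h
      norm_num at hN
    · exact h
  have hNR : (0 : ℝ) < N := by exact_mod_cast hN1
  have hlR : (1 : ℝ) ≤ l := by exact_mod_cast hl
  have hl0 : (0 : ℝ) < l := by linarith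
  have hn0 : (0 : ℝ) ≤ n := Nat.cast_nonneg n
  have a2 : ((n / (40 * l * N) : ℕ) : ℝ) ≤ n / (40 * l * N) := by
    refine le_trans Nat.cast_div_le ?_
    push_cast
    exact le_refl _
  have a3 : (n : ℝ) / N ≤ ε * n := by
    rw [div_le_iff₀ hNR]
    nlinarith
  have a4 : (l : ℝ) * ((n / (40 * l * N) : ℕ) : ℝ) ≤ ε * n / 40 := by
    calc (l : ℝ) * ((n / (40 * l * N) : ℕ) : ℝ) ≤ l * (n / (40 * l * N)) := by gcongr
      _ = n / N / 40 := by
          field_simp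
      _ ≤ ε * n / 40 := by linarith
  have a6 : (((n - w : ℕ) : ℕ) : ℝ) = n - w := Nat.cast_sub hwn
  have a7 : (4096 : ℝ) * l ≤ k := by exact_mod_cast hlk
  have h1 : (1 - (β - ε)) * n = n - β * n + ε * n := by ring
  rw [h1]
  constructor
  · rw [Nat.cast_add, Nat.cast_add, a6]
    push_cast
    linarith
  · rw [Nat.cast_add, Nat.cast_add, a6]
    push_cast
    linarith

theorem pf_NM0 : T_NM0 := by
  refine ⟨4096, ?_⟩
  intro ε β n t k hε hεβ hβ ht hnt hk hkn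
  have hε1 : ε < 1 := by linarith
  obtain ⟨l, hl⟩ : ∃ l, l = Nat.log 2 t := ⟨_, rfl⟩
  rw [← hl] at hk
  have hl1 : 1 ≤ l := by
    rw [hl]
    exact Nat.log_pos (by norm_num) (by omega)
  have ht2 : t < 2 ^ (l + 1) := by
    rw [hl]
    exact Nat.lt_pow_succ_log_self (by norm_num) t
  have hlR : (1 : ℝ) ≤ l := by exact_mod_cast hl1
  have hk0 : (0 : ℝ) ≤ k := Nat.cast_nonneg k
  have hn0 : (0 : ℝ) ≤ n := Nat.cast_nonneg n
  have hk' : 4096 * (l : ℝ) ≤ ε ^ 2 * k := by exact_mod_cast hk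
  have hkn' : 4096 * (k : ℝ) ≤ ε * n := by exact_mod_cast hkn
  have hε3 : ε ^ 2 ≤ 1 := pow_le_one₀ hε.le hε1.le
  have hlkR : 4096 * (l : ℝ) ≤ k := by
    have : ε ^ 2 * k ≤ 1 * k := mul_le_mul_of_nonneg_right hε3 hk0
    linarith
  have hlk : 4096 * l ≤ k := by exact_mod_cast hlkR
  have hεn : ε * n ≤ β * n := mul_le_mul_of_nonneg_right hεβ.le hn0
  have hβn : β * n ≤ n := by
    have := mul_le_mul_of_nonneg_right hβ hn0
    linarith
  obtain ⟨f, hf⟩ : ∃ f, f = ⌊β * n⌋₊ := ⟨_, rfl⟩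
  have hβ0 : 0 ≤ β * n := by
    have : 0 ≤ ε * n := by positivity
    linarith
  have hf1 : (f : ℝ) ≤ β * n := by
    rw [hf]
    exact Nat.floor_le hβ0
  have hf2 : β * n < f + 1 := by
    rw [hf]
    exact Nat.lt_floor_add_one _
  have hf3 : 4096 * k ≤ f := by
    rw [hf]
    apply Nat.le_floor
    push_cast
    linarith
  have hf4 : f ≤ n := by
    have : (f : ℝ) ≤ n := by linarith
    exact_mod_cast this
  have hk1 : 1 ≤ k := by omega
  have hkn1 : k ≤ n := by omega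
  have hn1 : 1 ≤ n := by omega
  have hn1R : (1 : ℝ) ≤ n := by exact_mod_cast hn1
  obtain ⟨N, hN⟩ : ∃ N, N = ⌈1 / ε⌉₊ := ⟨_, rfl⟩
  have hN1 : 1 / ε ≤ (N : ℝ) := by
    rw [hN]
    exact Nat.le_ceil _
  have hN2 : (N : ℝ) < 1 / ε + 1 := by
    rw [hN]
    exact Nat.ceil_lt_add_one (by positivity)
  have hN3 : 1 ≤ ε * N := by
    rw [div_le_iff₀ hε] at hN1
    linarith
  have hN4 : ε * N ≤ 2 := by
    have h1 : ε * (N : ℝ) ≤ ε * (1 / ε + 1) := mul_le_mul_of_nonneg_left hN2.le hε.le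
    have h2 : ε * (1 / ε + 1) = 1 + ε := by
      field_simp
    linarith
  have hN5 : 1 ≤ N := by
    rcases Nat.eq_zero_or_pos N with h | h
    · rw [h] at hN3
      norm_num at hN3
    · exact h
  have hwk : β * n - 1 ≤ ((f - k : ℕ) : ℝ) + k := by
    rw [Nat.cast_sub (by omega)]
    linarith
  obtain ⟨hx1, hx2⟩ := exp_ineq ε β n l N k (f - k) hN3 hl1 hlk hkn' (by omega) hwk
  have hlast := last_ineq0 ε n l N k hε hN5 hN4 hl1 hk'
  have hs0 : n / (40 * l * N) ≤ t := le_trans (Nat.div_le_self _ _) hnt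
  obtain ⟨s, hs⟩ : ∃ s : ℕ, s = n / (40 * l * N) := ⟨_, rfl⟩
  rw [← hs] at hx1 hx2 hlast hs0
  have htt : t * t < 2 ^ (2 * l + 2) := by
    calc t * t < 2 ^ (l + 1) * 2 ^ (l + 1) := Nat.mul_lt_mul_of_lt_of_lt ht2 ht2
      _ = 2 ^ (2 * l + 2) := by rw [← pow_add]; congr 1; ring
  have htt2 : t ≤ t * t := Nat.le_mul_self t
  refine ⟨f - k, 5 * l, s,
    ⟨by omega, hnt, hk1, hkn1, by omega, by omega, ?_, by linarith, ?_, ?_, ?_⟩,
    ?_, ?_⟩
  · -- rr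
    have hts : t * s ≤ t * t := Nat.mul_le_mul_left t hs0
    calc t + t * s ≤ 2 * (t * t) := by omega
      _ < 2 * 2 ^ (2 * l + 2) := by omega
      _ = 2 ^ (2 * l + 3) := by rw [← pow_succ']
      _ ≤ 2 ^ (5 * l) := Nat.pow_le_pow_right (by norm_num) (by omega)
  · -- tau4
    have e1 : 4 * (tau0 n (f - k) (5 * l) s : ℝ) =
        (2 : ℝ) ^ ((2 + 5 * l * s + (n - (f - k)) : ℕ) : ℝ) := by
      rw [Real.rpow_natCast, pow_add, pow_add]
      unfold tau0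
      push_cast
      ring
    rw [e1]
    exact Real.rpow_le_rpow_of_exponent_le (by norm_num) hx1
  · -- bad4
    have hst : s ≤ 2 ^ (2 * l) := by
      calc s ≤ t := hs0
        _ ≤ 2 ^ (l + 1) := ht2.le
        _ ≤ 2 ^ (2 * l) := Nat.pow_le_pow_right (by norm_num) (by omega)
    have e0 : 4 * (s ^ (s + 1) * 2 ^ (n - (f - k))) ≤
        2 ^ (2 + 2 * l * (s + 1) + (n - (f - k))) := by
      calc 4 * (s ^ (s + 1) * 2 ^ (n - (f - k)))
          ≤ 4 * ((2 ^ (2 * l)) ^ (s + 1) * 2 ^ (n - (f - k))) := by gcongr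
        _ = 2 ^ (2 + 2 * l * (s + 1) + (n - (f - k))) := by
            rw [← pow_mul, pow_add, pow_add]
            ring
    have e1 : (4 * ((s ^ (s + 1) * 2 ^ (n - (f - k)) : ℕ) : ℝ)) ≤
        (2 : ℝ) ^ ((2 + 2 * l * (s + 1) + (n - (f - k)) : ℕ) : ℝ) := by
      rw [Real.rpow_natCast]
      exact_mod_cast e0
    exact e1.trans (Real.rpow_le_rpow_of_exponent_le (by norm_num) hx2)
  · -- cov
    have e2 : (2 : ℕ) ^ n = 2 ^ k * 2 ^ (n - k) := by
      rw [← pow_add]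
      congr 1
      omega
    rw [e2]
    have h1 : 4 * s < 2 ^ k := by
      calc 4 * s ≤ 4 * t := by omega
        _ < 4 * 2 ^ (l + 1) := by omega
        _ = 2 ^ (l + 3) := by
          rw [pow_add, pow_add]
          ring
        _ ≤ 2 ^ k := Nat.pow_le_pow_right (by norm_num) (by omega)
    calc 4 * (s * 2 ^ (n - k)) = (4 * s) * 2 ^ (n - k) := by ring
      _ < 2 ^ k * 2 ^ (n - k) := Nat.mul_lt_mul_of_pos_right h1 (by positivity)
  · -- w + k
    rw [Nat.cast_sub (by omega)]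
    linarith
  · linarith

end Pool.Agent.H36.FLD
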